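import Pool.Agent.Y462.AR.Stm2

/-!
# The quotients of sines

The values of `U m j = sin (j π / m) / sin (π / m)`.
-/

namespace Pool.Agent.Y79.AR

open Pool.Agent.Y462.AR

theorem u_facts {m : ℕ} (hm : 2 ≤ m) : 0 < Real.pi / m ∧ Real.pi / m < Real.pi ∧
    (m : ℝ) * (Real.pi / m) = Real.pi ∧ 0 < Real.sin (Real.pi / m) := by
  have hm0 : (0 : ℝ) < m := by
    have : 0 < m := by omega
    exact_mod_cast this
  have hm2 : (2 : ℝ) ≤ m := by exact_mod_cast hm
  have hp := Real.pi_pos
  have h1 : 0 < Real.pi / m := div_pos hp hm0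
  have h2 : Real.pi / m < Real.pi := by
    rw [div_lt_iff₀ hm0]
    nlinarith
  exact ⟨h1, h2, by field_simp, Real.sin_pos_of_pos_of_lt_pi h1 h2⟩

/-- **AR2-U** -/
theorem t_u : S_U := by
  intro m hm
  obtain ⟨h1, h2, h3, h4⟩ := u_facts hm
  have hne : Real.sin (Real.pi / m) ≠ 0 := ne_of_gt h4
  refine ⟨?_, ?_, ?_, ?_, ?_, ?_, ?_, ?_⟩
  · intro j
    unfold U lam
    have e1 : ((j + 1 : ℤ) : ℝ) * (Real.pi / m) = (j : ℝ) * (Real.pi / m) + Real.pi / m := by
      push_cast; ring
    have e2 : ((j - 1 : ℤ) : ℝ) * (Real.pi / m) = (j : ℝ) * (Real.pi / m) - Real.pi / m := by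
      push_cast; ring
    rw [e1, e2, Real.sin_add, Real.sin_sub]
    ring
  · unfold U
    simp
  · unfold U
    rw [Int.cast_one, one_mul, div_self hne]
  · unfold U
    rw [Int.cast_natCast, h3, Real.sin_pi, zero_div]
  · intro j hj0 hjm
    unfold U
    rw [le_div_iff₀ h4, one_mul]
    have hj1 : (1 : ℝ) ≤ j := by
      have : (1 : ℤ) ≤ j := hj0
      exact_mod_cast this
    have hj2 : (j : ℝ) + 1 ≤ m := by
      have : j + 1 ≤ (m : ℤ) := hjm
      exact_mod_cast this
    have hA : Real.pi / m ≤ j * (Real.pi / m) := le_mul_of_one_le_left h1.le hj1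
    have hB : j * (Real.pi / m) ≤ Real.pi - Real.pi / m := by
      have : ((j : ℝ) + 1) * (Real.pi / m) ≤ m * (Real.pi / m) :=
        mul_le_mul_of_nonneg_right hj2 h1.le
      rw [h3] at this
      linarith
    rcases le_total ((j : ℝ) * (Real.pi / m)) (Real.pi / 2) with h | h
    · exact Real.sin_le_sin_of_le_of_le_pi_div_two (by linarith) h hA
    · rw [← Real.sin_pi_sub ((j : ℝ) * (Real.pi / m))]
      exact Real.sin_le_sin_of_le_of_le_pi_div_two (by linarith) (by linarith) (by linarith)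
  · intro j
    unfold U
    have e1 : (((m : ℤ) + j : ℤ) : ℝ) * (Real.pi / m) = (j : ℝ) * (Real.pi / m) + Real.pi := by
      push_cast
      rw [add_mul, h3, add_comm]
    rw [e1, Real.sin_add_pi, neg_div]
  · intro j
    unfold U
    rw [Int.cast_neg, neg_mul, Real.sin_neg, neg_div]
  · intro h
    unfold lam
    have hm3 : (3 : ℝ) ≤ m := by exact_mod_cast h
    have hp := Real.pi_pos
    have : Real.cos (Real.pi / 3) ≤ Real.cos (Real.pi / m) := by
      apply Real.cos_le_cos_of_nonneg_of_le_pi h1.le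
      · linarith
      · exact div_le_div_of_nonneg_left hp.le (by norm_num) hm3
    rw [Real.cos_pi_div_three] at this
    linarith

end Pool.Agent.Y79.AR
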